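import Pool.Agent.TH540.Cyclic

/-!
# Cycles on cyclic covers of projective space branched along Fermat hypersurfaces

Let `e ≥ 2` divide `d` and let `X` be the cyclic cover `y ^ e = x_0 ^ d + ... + x_n ^ d` of the projective
space of dimension `n`, a smooth projective variety of dimension `n` (for `e = d` a Fermat
hypersurface). It is the quotient of the Fermat hypersurface of degree `d` and dimension `n` by the
automorphisms `y ↦ ζ y`, `ζ ^ {d / e} = 1`. Its Chow motive (with coefficients in the field of `d`-th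
roots of unity) is the sum of powers of the Lefschetz motive and of motives `V(a)`, where
`a : Fin (n + 2) → ZMod d` has nonzero values, sum zero and `e * a 0 = 0` (`IsCharacter`); the index `0`
belongs to the variable `y`. By Shioda and Katsura, if the index set is a union of `k` nonempty
blocks on which `a` has sum zero, then `V(a)` is `M(1 - k)`, where `M` is a direct summand of the motive
of a product of `k` Fermat varieties of total dimension `n - 2 k + 2`, with cohomology only in this
degree.

The theorem determines, for `d ≥ 3` and `n ≥ 1`, the numbers `k` for which this is so for all `a`.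
-/

namespace Pool.Agent.Results.MP_32dfd1_ag.CyclicCovers

open TH540.SC

/-- `a` is a character of the primitive cohomology of the cyclic cover
`y ^ e = x_0 ^ d + ... + x_n ^ d`. -/
def IsCharacter (d e n : ℕ) (a : Fin (n + 2) → ZMod d) : Prop :=
  (∀ j, a j ≠ 0) ∧ ∑ j, a j = 0 ∧ (e : ZMod d) * a 0 = 0

/-- The index set is a union of `k` nonempty disjoint blocks on which `a` has sum zero. -/
def HasBlocks (d n k : ℕ) (a : Fin (n + 2) → ZMod d) : Prop :=
  ∃ f : Fin (n + 2) → ℕ, (∀ j, f j < k) ∧
    ∀ l < k, (∃ j, f j = l) ∧ ∑ j with f j = l, a j = 0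

lemma exists_fun {d N : ℕ} (s : Multiset (ZMod d)) (hs : Multiset.card s = N) :
    ∃ a : Fin N → ZMod d, (Finset.univ : Finset (Fin N)).val.map a = s := by
  obtain ⟨l, rfl⟩ := Quot.exists_rep s
  change l.length = N at hs
  subst hs
  refine ⟨l.get, ?_⟩
  rw [Fin.univ_val_map, List.ofFn_get]
  rfl

/-- lists of nonzero residues with prescribed height -/
lemma exists_list {m n h : ℕ} [NeZero m] (hm : 3 ≤ m) (hn : 2 ≤ n) (h1 : h < n + m) (h2 : n ≤ h) :
    ∃ s : Multiset (ZMod m), Multiset.card s = n ∧ (0 : ZMod m) ∉ s ∧ ht s = h := by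
  have hone : (1 : ZMod m).val = 1 := by
    have := ZMod.val_natCast_of_lt (n := m) (a := 1) (by omega)
    simpa using this
  have hone0 : (0 : ZMod m) ≠ 1 := by
    intro h
    rw [← h, ZMod.val_zero] at hone
    omega
  have hrep : ∀ k : ℕ, ((Multiset.replicate k (1 : ZMod m)).map ZMod.val).sum = k := by
    intro k
    rw [Multiset.map_replicate, hone, Multiset.sum_replicate, smul_eq_mul, mul_one]
  obtain ⟨δ, hδ⟩ : ∃ δ, n + δ = h := ⟨h - n, by omega⟩
  by_cases hδm : δ + 1 < m
  · have e1 : ((1 + δ : ℕ) : ZMod m).val = 1 + δ := ZMod.val_natCast_of_lt (by omega)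
    refine ⟨((1 + δ : ℕ) : ZMod m) ::ₘ Multiset.replicate (n - 1) 1, ?_, ?_, ?_⟩
    · rw [Multiset.card_cons, Multiset.card_replicate]; omega
    · rw [Multiset.mem_cons, not_or]
      refine ⟨fun h => ?_, fun h => hone0 (Multiset.eq_of_mem_replicate h)⟩
      rw [← h, ZMod.val_zero] at e1
      omega
    · unfold ht
      rw [Multiset.map_cons, Multiset.sum_cons, hrep, e1]
      omega
  · have e1 : ((m - 1 : ℕ) : ZMod m).val = m - 1 := ZMod.val_natCast_of_lt (by omega)
    have e2 : ((2 : ℕ) : ZMod m).val = 2 := ZMod.val_natCast_of_lt (by omega)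
    refine ⟨((m - 1 : ℕ) : ZMod m) ::ₘ ((2 : ℕ) : ZMod m) ::ₘ
      Multiset.replicate (n - 2) 1, ?_, ?_, ?_⟩
    · rw [Multiset.card_cons, Multiset.card_cons, Multiset.card_replicate]; omega
    · rw [Multiset.mem_cons, not_or, Multiset.mem_cons, not_or]
      refine ⟨fun h => ?_, fun h => ?_, fun h => hone0 (Multiset.eq_of_mem_replicate h)⟩
      · rw [← h, ZMod.val_zero] at e1
        omega
      · rw [← h, ZMod.val_zero] at e2
        omega
    · unfold ht
      rw [Multiset.map_cons, Multiset.sum_cons, Multiset.map_cons, Multiset.sum_cons, hrep, e1, e2]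
      omega

theorem result (d e n k : ℕ) (hd : 3 ≤ d) (he : 2 ≤ e) (hed : e ∣ d) (hn : 1 ≤ n) (hk : 1 ≤ k) :
    (∀ a, IsCharacter d e n a → HasBlocks d n k a) ↔ d * (k - 1) < n + 1 + d / e := by
  have hz : NeZero d := ⟨by omega⟩
  obtain ⟨c, rfl⟩ : ∃ c, k = c + 1 := ⟨k - 1, by omega⟩
  rw [Nat.add_sub_cancel]
  obtain ⟨w, hw⟩ := hed
  have hdw : d / e = w := by
    rw [hw]
    exact Nat.mul_div_cancel_left w (by omega)
  have hw0 : 0 < w := by
    rcases Nat.eq_zero_or_pos w with h | h
    · rw [h, mul_zero] at hw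
      omega
    · exact h
  have hwd : w < d := by
    rw [hw]
    nlinarith
  rw [hdw]
  constructor
  · intro h
    by_contra hlt
    -- the smallest possible height
    obtain ⟨κ, k1, k2, k3⟩ : ∃ κ, d * κ < n + 1 + w + d ∧ n + 1 + w ≤ d * κ ∧ κ ≤ c := by
      refine ⟨(n + 1 + w + d - 1) / d, ?_, ?_, ?_⟩
      · have := Nat.mul_div_le (n + 1 + w + d - 1) d
        omega
      · have := Nat.lt_mul_div_succ (n + 1 + w + d - 1) (b := d) (by omega)
        rw [mul_add, mul_one] at this
        omega
      · rw [Nat.div_le_iff_le_mul_add_pred (by omega)]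
        omega
    obtain ⟨s, s1, s2, s4⟩ := exists_list (m := d) (n := n + 1) (h := d * κ - w) hd (by omega)
      (by omega) (by omega)
    obtain ⟨a, ha⟩ := exists_fun s s1
    have hwv : ((w : ℕ) : ZMod d).val = w := ZMod.val_natCast_of_lt hwd
    have hsv : ∑ j, (a j).val = d * κ - w := by
      rw [← s4, ← ha]
      unfold ht
      rw [Multiset.map_map]
      rfl
    have hsum : ∑ j, a j = ((d * κ - w : ℕ) : ZMod d) := by
      rw [← s4, cast_ht, ← ha]
      rfl
    set a' : Fin (n + 2) → ZMod d := Fin.cons ((w : ℕ) : ZMod d) a with ha'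
    have h0 : ∀ j, a' j ≠ 0 := by
      intro j
      refine Fin.cases ?_ (fun i => ?_) j
      · rw [ha', Fin.cons_zero]
        intro h0
        rw [h0, ZMod.val_zero] at hwv
        omega
      · rw [ha', Fin.cons_succ]
        intro hj
        apply s2
        rw [← ha, ← hj]
        exact Multiset.mem_map_of_mem a (Finset.mem_univ i)
    have hs : ∑ j, a' j = 0 := by
      rw [Fin.sum_univ_succ]
      have : ∀ i : Fin (n + 1), a' i.succ = a i := fun i => by rw [ha', Fin.cons_succ]
      rw [Finset.sum_congr rfl fun i _ => this i, hsum, ha', Fin.cons_zero, ← Nat.cast_add]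
      have : w + (d * κ - w) = d * κ := by omega
      rw [this]
      simp
    have hval : ∑ j, (a' j).val = d * κ := by
      rw [Fin.sum_univ_succ]
      have : ∀ i : Fin (n + 1), (a' i.succ).val = (a i).val := fun i => by rw [ha', Fin.cons_succ]
      rw [Finset.sum_congr rfl fun i _ => this i, hsv, ha', Fin.cons_zero, hwv]
      omega
    have he0 : (e : ZMod d) * a' 0 = 0 := by
      rw [ha', Fin.cons_zero, ← Nat.cast_mul, ← hw, ZMod.natCast_self]
    obtain ⟨f, f1, f2⟩ := h a' ⟨h0, hs, he0⟩
    have h3 := blocks_height (c := c) h0 f (fun j => Nat.le_of_lt_succ (f1 j))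
      (fun j hj => f2 j (Nat.lt_succ_of_le hj))
    rw [hval] at h3
    have := Nat.le_of_mul_le_mul_left h3 (by omega)
    omega
  · rintro h a ⟨h0, hs, he0⟩
    have h2 : ((Finset.univ : Finset (Fin (n + 2))).val.map a).sum = 0 := hs
    have h3 : Multiset.card ((Finset.univ : Finset (Fin (n + 2))).val.map a) = n + 2 := by
      rw [Multiset.card_map]
      simp
    have hmem : a 0 ∈ (Finset.univ : Finset (Fin (n + 2))).val.map a :=
      Multiset.mem_map_of_mem a (Finset.mem_univ (0 : Fin (n + 2)))
    obtain ⟨T, hT⟩ := Multiset.exists_cons_of_mem hmem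
    have h4 : Multiset.card T = n + 1 := by
      have := congrArg Multiset.card hT
      rw [h3, Multiset.card_cons] at this
      omega
    have h5 := splits_of_order (m := d) (e := e) ⟨w, hw⟩ (h0 0) (by rw [nsmul_eq_mul]; exact he0) c
      (T := T) (by rw [← hT]; exact h2) (by rw [h4, hdw]; exact h)
    rw [← hT] at h5
    obtain ⟨f, f1, f2⟩ := blocks_of_splits a (c + 1) Finset.univ h5
    refine ⟨f, fun j => f1 j (Finset.mem_univ j), fun j hj => ?_⟩
    obtain ⟨⟨l, _, hl⟩, g⟩ := f2 j hj
    exact ⟨⟨l, hl⟩, g⟩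

end Pool.Agent.Results.MP_32dfd1_ag.CyclicCovers
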