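import Pool.Agent.TH26.Odd.Main

/-!
# Homologically trivial cycles: reduction to varieties without odd cohomology

`𝒱` is a class of smooth projective geometrically irreducible varieties over the field `k` closed
under products (for example all of them, over an algebraic closure of `ℚ`), `C` the Chow groups with
rational coefficients (in the form of their formal properties, `IsChowProj`) and `H` a Weil cohomology
theory (`IsWeilProj`; for example Betti cohomology, coefficients `K = ℚ`) with the hard Lefschetz
theorem (`HasHardLefschetz`). `P` is a curve with `H^1(P) = 0` (the projective line), and `Sec` the
class of the inclusions of smooth ample hypersurface sections; the facts used on it (`IsSections`) are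
the hyperplane theorem of Lefschetz and a theorem of Bertini type for hypersurfaces through cycles of
dimension `e < (dim X - 2) / 2`.

The question asks whether `CH^m(X)_hom = 0` whenever `m ≥ 1` and `H^(2m-1)(X) = 0` (`Question`).

(1) For all `X` and `m` with `dim X ≤ 2 m` this is equivalent to the vanishing of all `CH^m(X)_hom`,
`m ≥ 1`, for all varieties `X` without any odd cohomology.

(2) In the latter statement it is enough to consider the `X` of dimension `2 m - 2`, and only the `m` in
a given infinite set.

(3) The whole question is equivalent to its case of varieties without odd cohomology together
with the hyperplane theorem for homologically trivial cycles of small codimension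
(`ChowLefschetz`): for `2 m < dim X`, `H^(2m-1)(X) = 0`, a class in `CH^m(X)_hom` which vanishes on all
smooth ample hypersurface sections is zero.

Proof. A class in `CH_e(X)_hom`, `dim X > 2 e + 2`, is the push-forward of a class on a hypersurface
section `Y`, which is homologically trivial on `Y`, and `H^(2m-3)(Y) = H^(2m-1)(X) = 0`; so one comes down
to `dim X = 2 e + 2 = 2 m - 2`, where `H^(dim X + 1)(X) = 0` implies by Poincare duality and hard
Lefschetz that there is no odd cohomology. If `dim X` is `2 m - 1` or `2 m` one first multiplies with
`P`: the cohomology of `X × P` still vanishes in the degree in question, by hard Lefschetz on `X`.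
Products with `P` do not create odd cohomology, and show that larger `m` are harder. For small
codimension one uses induction on the dimension and the restriction to hypersurface sections.
-/

open CategoryTheory AlgebraicGeometry

set_option autoImplicit false

universe u v w

namespace Pool.Agent.Results.MP_32dfd1_ag.NoOddCohomologySuffices

open Pool.Agent.H914 Pool.Agent.W492.BB Pool.Agent.TH133 Pool.Agent.TH26.Odd

/-- (1) The question for all `(X, m)` with `dim X ≤ 2 m` is equivalent to the injectivity of the cycle
class maps (rational coefficients) of all varieties without odd cohomology; (2) for this it is enough to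
consider `X` of dimension `2 m - 2`, for infinitely many `m`; (3) the whole question is equivalent to
this together with the hyperplane theorem for homologically trivial cycles of codimension less than
half the dimension. -/
theorem result {k : Type u} [Field k] {𝒱 : VarClass k} (C : TheoryData.{u, v, 0} 𝒱 ℚ)
    [IsChowProj C] {K : Type w} [Field K] (H : WeilTheoryData.{u, v, w} C K) [IsWeilProj H]
    (P : 𝒱.Obj) (hP : P.dim = 1) (hP1 : Vanishes H P 1) (hL : HasHardLefschetz H)
    (Sec : ∀ {Y X : 𝒱.Obj}, (Y ⟶ X) → Prop) (hSec : IsSections H Sec) :
    (HighCodim H ↔ NoOddInjective H) ∧
    (∀ S : Set ℕ, S.Infinite → (NoOddInjective H ↔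
      ∀ (X : 𝒱.Obj) (m : ℕ), m ∈ S → X.dim + 2 = 2 * m → NoOdd H X → CycleInjective H X m)) ∧
    (Question H ↔ NoOddInjective H ∧ ChowLefschetz H Sec) :=
  ⟨high_iff hP hP1 hL hSec, fun _ hS => two_iff hP hP1 hL hSec hS,
    question_iff hP hP1 hL hSec⟩

end Pool.Agent.Results.MP_32dfd1_ag.NoOddCohomologySuffices
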