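import Pool.Agent.TH629.CM.Odd

/-!
# Homologically trivial cycles on varieties without odd cohomology and identities for correspondences
and automorphisms

`𝒱` is a class of smooth projective geometrically irreducible varieties over the field `k` closed
under products (for the problem: all of them, over the field `k` of the algebraic numbers), `C` is the
theory of the Chow groups with rational coefficients and `H` a cohomology theory, for the problem
singular cohomology (in the form of their formal properties, `IsChowProj`, `IsWeilProj`).
`homTriv H X m` is `CH^m_hom(X) ⊗ ℚ`. The question is whether it is zero if `H^{2m-1}(X) = 0`.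

`NoOddCohomology H r n X` says that `X` has dimension `n` and `H^i(X) = 0` for all odd `i ≤ r`. If `r`
is at least the minimum of `2m-1` and `2n-2m+1` then this contains the hypothesis `H^{2m-1}(X) = 0` of
the question, by Poincare duality. For zero-cycles, `m = n ≥ 2` and `r = 1`, it is equivalent to the
hypothesis of the question.

An identity `a` (`Ident`) consists of a residually finite group `Q`, a finite subset of `Q`, and a
non-zero element `p` of the free product of the group algebra `ℚ[Q]` and of the algebra of
non-commutative polynomials in variables `y_j` and in their transposes, that is, a linear
combination of words `g_0 v_1 g_1 ⋯ v_N g_N`, with `g_i` in `Q` and each `v_i` a variable or the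
transpose of a variable. `HoldsOnHom H m a n 𝒰` says that `p` acts as zero on `CH^m_hom(U) ⊗ ℚ` for
all `U` of dimension `n` in the class `𝒰`, all actions of `Q` on `U` for which the elements of the
finite subset different from `1` act non-trivially, and all correspondences `P_j ∈ CH^n(U × U)` in the
place of the variables.

Theorem. (1) Let `r < n`. All homologically trivial cycles of codimension `m` are torsion on all
varieties of dimension `n` without odd cohomology in degrees `≤ r` if and only if one single identity
`a` holds for them on these varieties. (2) The question has a positive answer for the zero-cycles on
all varieties of dimension at least two if and only if one single identity holds on `CH^2_hom(U) ⊗ ℚ`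
for the surfaces `U` with `H^1(U) = 0`.

For example, the question has a positive answer for zero-cycles if and only if all involutions of
surfaces `U` with `H^1(U) = 0` act trivially on `CH_0(U)` (`Q` of order two, `p = τ - 1`); if and only
if, for one given finite group `Q`, each zero-cycle of degree zero on such a surface with a faithful
action of `Q` which is invariant under `Q` is torsion (`p` the sum of the elements of `Q`); if and
only if all correspondences in `CH^2(U × U)` commute on `CH_0(U)_0 ⊗ ℚ` (`Q` trivial,
`p = y_1 y_2 - y_2 y_1`); if and only if each of them acts as its transpose; if and only if they
satisfy any other given polynomial identity. In each case only surfaces `U` in a class `𝒰 1 2` need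
be considered, for example those with ample canonical class. Over the field of the complex numbers
all these identities fail (Mumford).

Hypothesis `IsLargeOdd H 𝒰` (theorems of Bertini and Lefschetz, Kunneth formula): for each finite set
`I`, all `r < n` and each `S` of dimension `n` without odd cohomology in degrees `≤ r` there is a
complete intersection of dimension `n`, in the class `𝒰 r n` of such varieties, of symmetric divisors
in the power `S^I`, on which the permutations of `I` act. Hypothesis `HasRegularSurfaces H` (theorems
of Bertini and Lefschetz): zero-cycles of degree zero on varieties `X` with `H^1(X) = 0` come from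
surfaces with this property.

Proof. Let `x` be in `CH^m_hom(S) ⊗ ℚ` and `N` the largest number of variables in the words of `p`. As
`Q` is residually finite it acts on a finite set `B` with a point `b` at which the elements of `Q`
occurring in `p`, those of the finite subset and `1` take different values. Let `U` be the complete
intersection in the power of `S` with exponent `I = B × {0, …, N}` and `f_{b, i} : U → S` the
projections. For different `(b, i)` and `(c, j)` the correspondence `f_{c, j *} f_{b, i}^*` is a
multiple of `(h × S + S × h)^n`, which acts as zero on numerically trivial cycles, and
`f_{b, i *} f_{b, i}^*` is multiplication by a number `d ≠ 0`. The group `Q` acts on `U` through `B`.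
Take a word `w = g_0 v_1 g_1 ⋯ v_N g_N` of the maximal length `N` which occurs in `p`; by a
Vandermonde argument only the words of length `N` matter. In the place of each variable one puts the
sum of the correspondences `f_{b, i}^* f_{g_{i-1} b, i-1 *}` for the `i` for which `v_i` is this
variable, and of their transposes for the `i` for which `v_i` is its transpose. Then `p` maps
`f_{b, 0}^* x` to `p_w d^N f_{g_N b, N}^* x` plus terms in the spans of the images of the other
`f_{c, j}^*`; these pull-backs are independent.
-/

open CategoryTheory AlgebraicGeometry

set_option autoImplicit false

universe u v w

namespace Pool.Agent.Results.MP_32dfd1_ag.SingleIdentities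

open Pool.Agent.H914 Pool.Agent.W492.BB Pool.Agent.TH133 Pool.Agent.TH629.CM.Th

/-- `CH^m_hom(X) ⊗ ℚ = 0` for all `X` of dimension `n` without odd cohomology in degrees `≤ r`
(`r < n`) if and only if one identity holds for these groups; and this vanishing for zero-cycles in
all dimensions `n ≥ 2`, with `r = 1`, is equivalent to one identity for surfaces. -/
theorem result {k : Type u} [Field k] {𝒱 : VarClass k} (C : TheoryData.{u, v, 0} 𝒱 ℚ)
    [IsChowProj C] {K : Type w} [Field K] (H : WeilTheoryData.{u, v, w} C K) [IsWeilProj H]
    (𝒰 : ℕ → ℕ → 𝒱.Obj → Prop) (h𝒰 : IsLargeOdd H 𝒰) (hS : HasRegularSurfaces H) (a : Ident) :
    (∀ m r n : ℕ, r < n →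
      (HomVanishes H m (NoOddCohomology H r n) ↔ HoldsOnHom H m a n (𝒰 r n))) ∧
    ((∀ n, 2 ≤ n → HomVanishes H n (NoOddCohomology H 1 n)) ↔ HoldsOnHom H 2 a 2 (𝒰 1 2)) :=
  ⟨fun m _ _ hr => odd_iff h𝒰 m hr a, zeroCycles_iff h𝒰 hS a⟩

end Pool.Agent.Results.MP_32dfd1_ag.SingleIdentities
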